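import Pool.Agent.N889.WU.Stm

/-!
# WU/ALGX: two points with the same image and the same derivative coincide
-/

set_option autoImplicit false

open Polynomial IntermediateField

namespace Pool.Agent.N596.WU

open Pool.Agent.N889.WU

universe u

section

variable {k L : Type u} [Field k] [Field L] [Algebra k L] {Γ : Type*}
  [LinearOrderedCommGroupWithZero Γ] (v : Valuation L Γ)

lemma const_one (hk : ∀ a : k, v (algebraMap k L a) ≤ 1) {a : k} (ha : a ≠ 0) :
    v (algebraMap k L a) = 1 := by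
  refine le_antisymm (hk a) ?_
  have h1 := hk a⁻¹
  rw [map_inv₀, map_inv₀] at h1
  have h2 : v (algebraMap k L a) ≠ 0 := by
    rw [v.ne_zero_iff]
    exact (_root_.map_ne_zero _).2 ha
  have h3 : 0 < v (algebraMap k L a) := zero_lt_iff.2 h2
  exact (inv_le_one₀ h3).1 h1

/-- leading terms -/
lemma lead (hk : ∀ a : k, v (algebraMap k L a) ≤ 1) (g : k[X]) (n : ℕ) (hg : g.natDegree ≤ n)
    (y z : L) (hz : z ≠ 0) (hz1 : v z⁻¹ < 1) (hy : v (y / z) ≤ 1) :
    v ((z⁻¹) ^ n * aeval y g - algebraMap k L (g.coeff n) * (y / z) ^ n) < 1 := by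
  have h1 : (z⁻¹) ^ n * aeval y g - algebraMap k L (g.coeff n) * (y / z) ^ n =
      ∑ i ∈ Finset.range n, algebraMap k L (g.coeff i) * (y / z) ^ i * (z⁻¹) ^ (n - i) := by
    rw [aeval_eq_sum_range' (n := n + 1) (by omega), Finset.sum_range_succ, mul_add, Finset.mul_sum]
    have h2 : (z⁻¹) ^ n * (g.coeff n • y ^ n) = algebraMap k L (g.coeff n) * (y / z) ^ n := by
      rw [Algebra.smul_def, div_eq_mul_inv, mul_pow]; ring
    rw [h2, add_sub_cancel_right]
    refine Finset.sum_congr rfl fun i hi => ?_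
    have hi' : i < n := Finset.mem_range.1 hi
    rw [Algebra.smul_def, div_eq_mul_inv, mul_pow]
    have h3 : (z⁻¹) ^ n = (z⁻¹) ^ i * (z⁻¹) ^ (n - i) := by
      rw [← pow_add]; congr 1; omega
    rw [h3]; ring
  rw [h1]
  refine v.map_sum_lt one_ne_zero fun i hi => ?_
  have hi' : i < n := Finset.mem_range.1 hi
  rw [map_mul, map_mul, map_pow, map_pow]
  have h2 : v (algebraMap k L (g.coeff i)) * v (y / z) ^ i ≤ 1 :=
    mul_le_one' (hk _) (pow_le_one₀ zero_le hy)
  have h3 : v z⁻¹ ^ (n - i) < 1 := pow_lt_one₀ zero_le hz1 (by omega)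
  exact mul_lt_one_of_nonneg_of_lt_one_right h2 zero_le h3

lemma lt_of_mul {a b : L} (ha : v a = 1) (h : v (a * b) < 1) : v b < 1 := by
  rwa [map_mul, ha, one_mul] at h

/-- same values of `g` give the same leading term. -/
lemma leadeq (hk : ∀ a : k, v (algebraMap k L a) ≤ 1) (g : k[X]) (n : ℕ) (hg : g.natDegree ≤ n)
    (hn : g.coeff n ≠ 0)
    (x z : L) (hz : z ≠ 0) (hz1 : v z⁻¹ < 1) (hx : v (x / z) ≤ 1) (he : aeval x g = aeval z g) :
    v ((x / z) ^ n - 1) < 1 := by
  have h1 := lead v hk g n hg x z hz hz1 hx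
  have h2 := lead v hk g n hg z z hz hz1 (by rw [div_self hz, map_one])
  rw [div_self hz, one_pow, mul_one] at h2
  rw [he] at h1
  have h3 := v.map_sub_lt h2 h1
  refine lt_of_mul v (const_one v hk hn) ?_
  convert h3 using 2
  ring

end

theorem t_ALGX : S_ALGX.{u} := by
  intro p _ k L _ _ _ _ h x z A D h3 hp hA hzA hxz hzx he hD hDz
  by_contra hne
  obtain ⟨v, hv⟩ : ∃ v, v = A.valuation := ⟨_, rfl⟩
  have hk : ∀ a : k, v (algebraMap k L a) ≤ 1 := fun a => by
    rw [hv]; exact (A.valuation_le_one_iff _).2 (hA.1 a)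
  have hz : z ≠ 0 := by
    rintro rfl
    exact hzA A.zero_mem
  have hz1 : v z⁻¹ < 1 := by
    rw [← v.one_lt_val_iff hz, hv, ← not_le, A.valuation_le_one_iff]
    exact hzA
  have hx1 : v (x / z) ≤ 1 := by rw [hv]; exact (A.valuation_le_one_iff _).2 hxz
  have hdeg : (h.natDegree : k) ≠ 0 := by
    intro h0
    exact hp ((CharP.cast_eq_zero_iff k p _).1 h0)
  have hh0 : h ≠ 0 := by
    rintro rfl
    simp at h3
  have hc : h.coeff h.natDegree ≠ 0 := by
    rw [coeff_natDegree]
    exact leadingCoeff_ne_zero.2 hh0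
  obtain ⟨e, hedef⟩ : ∃ e, e + 1 = h.natDegree := ⟨h.natDegree - 1, by omega⟩
  have hd : aeval x (derivative h) = aeval z (derivative h) := by
    have h1 := congrArg D he
    rw [D.map_aeval, D.map_aeval, hD, smul_eq_mul, smul_eq_mul] at h1
    exact mul_right_cancel₀ hDz h1
  have hA1 := leadeq v hk h h.natDegree le_rfl hc x z hz hz1 hx1 he
  have hc' : (derivative h).coeff e ≠ 0 := by
    rw [coeff_derivative, hedef]
    refine mul_ne_zero hc ?_
    have : ((e : k) + 1) = (h.natDegree : k) := by rw [← hedef]; push_cast; ring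
    rw [this]
    exact hdeg
  have hA2 := leadeq v hk (derivative h) e (by
    have := natDegree_derivative_le h
    omega) hc' x z hz hz1 hx1 hd
  obtain ⟨u, hu⟩ : ∃ u, u = x / z := ⟨_, rfl⟩
  rw [← hu] at hA1 hA2 hx1
  have hu1 : v (u - 1) < 1 := by
    have h1 : v (u * (u ^ e - 1)) < 1 := by
      rw [map_mul]
      exact mul_lt_one_of_nonneg_of_lt_one_right hx1 zero_le hA2
    have h2 := v.map_sub_lt hA1 h1
    rw [← hedef] at h2
    have h4 : u ^ (e + 1) - 1 - u * (u ^ e - 1) = u - 1 := by ring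
    rwa [h4] at h2
  have hu0 : u - 1 ≠ 0 := by
    intro h0
    have : u = 1 := sub_eq_zero.1 h0
    rw [hu, div_eq_one_iff_eq hz] at this
    exact hne this
  -- the cofactor
  have hS : ∀ i : ℕ, u ^ i - 1 = (u - 1) * ∑ j ∈ Finset.range i, u ^ j := fun i => by
    rw [mul_comm]; exact (geom_sum_mul u i).symm
  have hSle : ∀ i : ℕ, v (∑ j ∈ Finset.range i, u ^ j) ≤ 1 := fun i =>
    v.map_sum_le fun j _ => by
      rw [map_pow]; exact pow_le_one₀ zero_le hx1
  have hSe : v (∑ j ∈ Finset.range h.natDegree, u ^ j - (h.natDegree : L)) < 1 := by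
    have h1 : ∑ j ∈ Finset.range h.natDegree, u ^ j - (h.natDegree : L) =
        ∑ j ∈ Finset.range h.natDegree, (u ^ j - 1) := by
      rw [Finset.sum_sub_distrib]; simp
    rw [h1]
    refine v.map_sum_lt one_ne_zero fun j _ => ?_
    rw [hS, map_mul]
    exact mul_lt_one_of_nonneg_of_lt_one_left zero_le hu1 (hSle j)
  have hzero : ∑ i ∈ Finset.range (h.natDegree + 1),
      algebraMap k L (h.coeff i) * (z⁻¹) ^ (h.natDegree - i) * ∑ j ∈ Finset.range i, u ^ j = 0 := by
    refine mul_left_cancel₀ hu0 ?_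
    rw [mul_zero, Finset.mul_sum]
    have h1 : ∀ i ∈ Finset.range (h.natDegree + 1),
        (u - 1) * (algebraMap k L (h.coeff i) * (z⁻¹) ^ (h.natDegree - i) *
          ∑ j ∈ Finset.range i, u ^ j) =
        (z⁻¹) ^ h.natDegree * (h.coeff i • x ^ i) - (z⁻¹) ^ h.natDegree * (h.coeff i • z ^ i) := by
      intro i hi
      have hi' : i < h.natDegree + 1 := Finset.mem_range.1 hi
      have h2 : (z⁻¹) ^ h.natDegree = (z⁻¹) ^ i * (z⁻¹) ^ (h.natDegree - i) := by
        rw [← pow_add]; congr 1; omega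
      have h4 : (z⁻¹) ^ i * z ^ i = 1 := by rw [← mul_pow, inv_mul_cancel₀ hz, one_pow]
      have h5 : (z⁻¹) ^ i * x ^ i = u ^ i := by
        rw [hu, ← mul_pow, div_eq_mul_inv, mul_comm]
      rw [h2, Algebra.smul_def, Algebra.smul_def]
      calc (u - 1) * (algebraMap k L (h.coeff i) * (z⁻¹) ^ (h.natDegree - i) *
            ∑ j ∈ Finset.range i, u ^ j)
          = algebraMap k L (h.coeff i) * (z⁻¹) ^ (h.natDegree - i) *
            ((u - 1) * ∑ j ∈ Finset.range i, u ^ j) := by ring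
        _ = algebraMap k L (h.coeff i) * (z⁻¹) ^ (h.natDegree - i) * (u ^ i - 1) := by rw [← hS]
        _ = algebraMap k L (h.coeff i) * (z⁻¹) ^ (h.natDegree - i) *
            ((z⁻¹) ^ i * x ^ i - (z⁻¹) ^ i * z ^ i) := by rw [h4, h5]
        _ = _ := by ring
    rw [Finset.sum_congr rfl h1, Finset.sum_sub_distrib, ← Finset.mul_sum, ← Finset.mul_sum,
      ← aeval_eq_sum_range, ← aeval_eq_sum_range, he, sub_self]
  rw [Finset.sum_range_succ, Nat.sub_self, pow_zero, mul_one] at hzero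
  have hlow : v (∑ i ∈ Finset.range h.natDegree,
      algebraMap k L (h.coeff i) * (z⁻¹) ^ (h.natDegree - i) * ∑ j ∈ Finset.range i, u ^ j) < 1 := by
    refine v.map_sum_lt one_ne_zero fun i hi => ?_
    have hi' : i < h.natDegree := Finset.mem_range.1 hi
    rw [map_mul, map_mul, map_pow]
    refine mul_lt_one_of_nonneg_of_lt_one_left zero_le ?_ (hSle i)
    exact mul_lt_one_of_nonneg_of_lt_one_right (hk _) zero_le (pow_lt_one₀ zero_le hz1 (by omega))
  have h6 : v (algebraMap k L (h.coeff h.natDegree) * ∑ j ∈ Finset.range h.natDegree, u ^ j) < 1 := by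
    rw [← v.map_neg]
    convert hlow using 2
    exact neg_eq_of_add_eq_zero_left hzero
  have h7 := lt_of_mul v (const_one v hk hc) h6
  have h8 : v (h.natDegree : L) < 1 := by
    have := v.map_sub_lt h7 hSe
    rwa [sub_sub_cancel] at this
  have h9 : v (algebraMap k L (h.natDegree : k)) = 1 := const_one v hk hdeg
  rw [map_natCast] at h9
  exact absurd h8 (by rw [h9]; exact lt_irrefl _)

end Pool.Agent.N596.WU
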